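import Mathlib

set_option autoImplicit false

open Metric Filter Topology
open scoped NNReal

namespace Pool.Agent.Results.MP_e93574_an.FixedPoint

/-- The set `Γ`: continuous, nondecreasing, subadditive functions `γ : [0,∞) → [0,∞)` that vanish
exactly at `0`. -/
def IsGamma (γ : ℝ≥0 → ℝ≥0) : Prop :=
  Continuous γ ∧ Monotone γ ∧ (∀ s t, γ (s + t) ≤ γ s + γ t) ∧ γ ⁻¹' {0} = {0}

/-- The class `A`: functions `θ : [0,∞) → [0,∞)` for which there are `ε₀ > 0` and `γ ∈ Γ` with
`θ t ≤ ε₀ → γ t ≤ θ t` for all `t`. -/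
def ClassA (θ : ℝ≥0 → ℝ≥0) : Prop :=
  ∃ ε₀ : ℝ≥0, 0 < ε₀ ∧ ∃ γ : ℝ≥0 → ℝ≥0, IsGamma γ ∧ ∀ t, θ t ≤ ε₀ → γ t ≤ θ t

/-- Functions in the class `A` are bounded below by a multiple of `min t 1`. -/
theorem ClassA.lower {θ : ℝ≥0 → ℝ≥0} (h : ClassA θ) :
    ∃ c : ℝ, 0 < c ∧ ∀ t : ℝ≥0, c * min (t : ℝ) 1 ≤ θ t := by
  obtain ⟨ε, hε, γ, ⟨-, hmono, hsub, h0⟩, hγ⟩ := h
  have hg1 : 0 < γ 1 := by
    rw [pos_iff_ne_zero]
    intro h
    have : (1 : ℝ≥0) ∈ γ ⁻¹' {0} := h
    rw [h0] at this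
    exact one_ne_zero this
  have hnat : ∀ (n : ℕ) (t : ℝ≥0), γ ((n : ℝ≥0) * t) ≤ n * γ t := by
    intro n t
    induction n with
    | zero =>
      have : (0 : ℝ≥0) ∈ γ ⁻¹' {0} := by rw [h0]; rfl
      have h1 : γ 0 = 0 := this
      simp [h1]
    | succ n ih =>
      have h1 : ((n + 1 : ℕ) : ℝ≥0) * t = n * t + t := by push_cast; ring
      rw [h1]
      refine (hsub _ _).trans ?_
      push_cast
      rw [add_mul, one_mul]
      exact add_le_add ih le_rfl
  -- linear lower bound near zero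
  have hlin : ∀ t : ℝ≥0, t ≤ 1 → (γ 1 : ℝ) / 2 * t ≤ γ t := by
    intro t ht
    rcases eq_or_ne t 0 with rfl | ht0
    · simp
    have htpos : (0 : ℝ) < t := by
      have : 0 < t := pos_iff_ne_zero.2 ht0
      exact_mod_cast this
    have ht1 : (t : ℝ) ≤ 1 := by exact_mod_cast ht
    obtain ⟨n, hn1, hn2⟩ : ∃ n : ℕ, 1 ≤ (n : ℝ) * t ∧ (n : ℝ) * t ≤ 2 := by
      refine ⟨⌈(1 : ℝ) / t⌉₊, ?_, ?_⟩
      · have := Nat.le_ceil ((1 : ℝ) / t)
        rwa [div_le_iff₀ htpos] at this
      · have h1 := (Nat.ceil_lt_add_one (a := (1 : ℝ) / t) (by positivity)).le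
        have h2 := mul_le_mul_of_nonneg_right h1 htpos.le
        have h3 : ((1 : ℝ) / t + 1) * t = 1 + t := by field_simp
        linarith
    have h1 : (1 : ℝ≥0) ≤ n * t := by exact_mod_cast hn1
    have h2 : γ 1 ≤ n * γ t := (hmono h1).trans (hnat n t)
    have h3 : (γ 1 : ℝ) ≤ n * γ t := by exact_mod_cast h2
    have h4 : (γ 1 : ℝ) * t ≤ 2 * γ t := by
      calc (γ 1 : ℝ) * t ≤ (n * γ t) * t := mul_le_mul_of_nonneg_right h3 htpos.le
        _ = (n * t) * γ t := by ring
        _ ≤ 2 * γ t := mul_le_mul_of_nonneg_right hn2 (NNReal.coe_nonneg _)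
    linarith
  have hεr : (0 : ℝ) < ε := by exact_mod_cast hε
  have hgr : (0 : ℝ) < γ 1 := by exact_mod_cast hg1
  refine ⟨min ε (γ 1 / 2), lt_min hεr (by positivity), fun t => ?_⟩
  have hmin0 : (0 : ℝ) ≤ min (t : ℝ) 1 := le_min (NNReal.coe_nonneg _) zero_le_one
  by_cases hθ : θ t ≤ ε
  · have h1 : (γ t : ℝ) ≤ θ t := by exact_mod_cast hγ t hθ
    refine le_trans ?_ h1
    refine (mul_le_mul_of_nonneg_right (min_le_right _ _) hmin0).trans ?_
    rcases le_total t 1 with ht | ht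
    · have ht' : (t : ℝ) ≤ 1 := by exact_mod_cast ht
      rw [min_eq_left ht']
      exact hlin t ht
    · have ht' : (1 : ℝ) ≤ t := by exact_mod_cast ht
      rw [min_eq_right ht']
      have h2 : (γ 1 : ℝ) ≤ γ t := by exact_mod_cast hmono ht
      linarith
  · have h1 : (ε : ℝ) ≤ θ t := by exact_mod_cast (not_le.1 hθ).le
    refine le_trans ?_ h1
    calc min (ε : ℝ) (γ 1 / 2) * min (t : ℝ) 1 ≤ ε * 1 :=
          mul_le_mul (min_le_left _ _) (min_le_right _ _) hmin0 hεr.le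
      _ = ε := mul_one _

/-- **Every weakly contractive set-valued map has a fixed point.**  Let `X` be a (nonempty)
complete metric space, `θ` in the class `A` and let `T` assign to each point of `X` a nonempty
closed bounded subset of `X` so that
`H(T x, T y) ≤ d(x, y) - θ(d(x, y))` for all `x, y`.  Then some `x` lies in `T x`. -/
theorem result {X : Type*} [MetricSpace X] [CompleteSpace X] [Nonempty X]
    (θ : ℝ≥0 → ℝ≥0) (hθ : ClassA θ) (T : X → Set X)
    (hne : ∀ x, (T x).Nonempty) (hcl : ∀ x, IsClosed (T x))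
    (hbd : ∀ x, Bornology.IsBounded (T x))
    (hT : ∀ x y, hausdorffDist (T x) (T y) ≤ dist x y - θ (nndist x y)) :
    ∃ x, x ∈ T x := by
  obtain ⟨c, hc, hlow⟩ := hθ.lower
  by_contra hno
  push Not at hno
  have hfin : ∀ x y, hausdorffEDist (T x) (T y) ≠ ⊤ := fun x y =>
    hausdorffEDist_ne_top_of_nonempty_of_bounded (hne x) (hne y) (hbd x) (hbd y)
  have hH : ∀ x y, hausdorffDist (T x) (T y) ≤ dist x y - c * min (dist x y) 1 := by
    intro x y
    have h1 := hlow (nndist x y)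
    rw [coe_nndist] at h1
    linarith [hT x y]
  -- one step of the iteration
  have step : ∀ p : {p : X × X // p.2 ∈ T p.1}, ∃ z : X, z ∈ T p.1.2 ∧
      dist p.1.2 z ≤ dist p.1.1 p.1.2 - c / 2 * min (dist p.1.1 p.1.2) 1 := by
    rintro ⟨⟨x, y⟩, hxy⟩
    have hne' : x ≠ y := fun h => hno x (by
      have h1 : y ∈ T x := hxy
      rwa [← h] at h1)
    have hd : 0 < dist x y := dist_pos.2 hne'
    have hm : 0 < min (dist x y) 1 := lt_min hd one_pos
    have h2 : hausdorffDist (T x) (T y) < dist x y - c / 2 * min (dist x y) 1 := by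
      have := hH x y
      nlinarith
    obtain ⟨z, hz, hz2⟩ := exists_dist_lt_of_hausdorffDist_lt hxy h2 (hfin x y)
    exact ⟨z, hz, hz2.le⟩
  choose F hF1 hF2 using step
  obtain ⟨x0⟩ := ‹Nonempty X›
  obtain ⟨x1, hx1⟩ := hne x0
  let P : ℕ → {p : X × X // p.2 ∈ T p.1} := fun n =>
    Nat.rec ⟨(x0, x1), hx1⟩ (fun _ p => ⟨(p.1.2, F p), hF1 p⟩) n
  have hP : ∀ n, (P (n + 1)).1 = ((P n).1.2, F (P n)) := fun n => rfl
  let u : ℕ → X := fun n => (P n).1.1
  have hu : ∀ n, (P n).1.2 = u (n + 1) := fun n => by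
    show (P n).1.2 = (P (n + 1)).1.1
    rw [hP]
  have hmem : ∀ n, u (n + 1) ∈ T (u n) := fun n => by
    have := (P n).2
    rwa [hu] at this
  have hdec : ∀ n, dist (u (n + 1)) (u (n + 2)) ≤
      dist (u n) (u (n + 1)) - c / 2 * min (dist (u n) (u (n + 1))) 1 := by
    intro n
    have h1 := hF2 (P n)
    have h2 : F (P n) = u (n + 2) := by
      rw [← hu (n + 1), hP]
    rw [h2, hu] at h1
    exact h1
  set d : ℕ → ℝ := fun n => dist (u n) (u (n + 1)) with hd
  have hd0 : ∀ n, 0 ≤ d n := fun n => dist_nonneg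
  have hmin0 : ∀ n, 0 ≤ min (d n) 1 := fun n => le_min (hd0 n) zero_le_one
  have hdn : ∀ n, d n ≤ d 0 := by
    intro n
    induction n with
    | zero => exact le_rfl
    | succ n ih =>
      have h1 : d (n + 1) ≤ d n - c / 2 * min (d n) 1 := hdec n
      have h2 : 0 ≤ c / 2 * min (d n) 1 := mul_nonneg (by positivity) (hmin0 n)
      linarith
  have hsum : ∀ n, c / 2 * ∑ i ∈ Finset.range n, min (d i) 1 ≤ d 0 - d n := by
    intro n
    induction n with
    | zero => simp
    | succ n ih =>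
      rw [Finset.sum_range_succ, mul_add]
      have h1 : d (n + 1) ≤ d n - c / 2 * min (d n) 1 := hdec n
      linarith
  have hS : Summable fun n => min (d n) 1 := by
    apply summable_of_sum_range_le hmin0 (c := d 0 / (c / 2))
    intro n
    rw [le_div_iff₀ (by positivity)]
    have := hsum n
    have := hd0 n
    linarith
  have hSd : Summable d := by
    refine Summable.of_nonneg_of_le hd0 (fun n => ?_) (hS.mul_left (max (d 0) 1))
    rcases le_total (d n) 1 with h | h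
    · rw [min_eq_left h]
      calc d n = 1 * d n := (one_mul _).symm
        _ ≤ max (d 0) 1 * d n := mul_le_mul_of_nonneg_right (le_max_right _ _) (hd0 n)
    · rw [min_eq_right h, mul_one]
      exact (hdn n).trans (le_max_left _ _)
  have hcau : CauchySeq u := cauchySeq_of_summable_dist hSd
  obtain ⟨x, hx⟩ := cauchySeq_tendsto_of_complete hcau
  have hbound : ∀ n, infDist (u (n + 1)) (T x) ≤ dist (u n) x := by
    intro n
    have h1 := infDist_le_hausdorffDist_of_mem (hmem n) (hfin (u n) x)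
    have h2 := hH (u n) x
    have h3 : 0 ≤ c * min (dist (u n) x) 1 :=
      mul_nonneg hc.le (le_min dist_nonneg zero_le_one)
    linarith
  have hlim1 : Tendsto (fun n => infDist (u (n + 1)) (T x)) atTop (𝓝 (infDist x (T x))) :=
    ((continuous_infDist_pt (T x)).tendsto x).comp ((tendsto_add_atTop_iff_nat 1).2 hx)
  have hlim2 : Tendsto (fun n => dist (u n) x) atTop (𝓝 0) := tendsto_iff_dist_tendsto_zero.1 hx
  have h0 : infDist x (T x) ≤ 0 := le_of_tendsto_of_tendsto' hlim1 hlim2 hbound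
  have h00 : infDist x (T x) = 0 := le_antisymm h0 infDist_nonneg
  exact hno x (((hcl x).mem_iff_infDist_zero (hne x)).2 h00)

end Pool.Agent.Results.MP_e93574_an.FixedPoint
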